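import Pool.Agent.H64.Chein

namespace Pool.Agent.Results.MP_0edd48_al.Nontrivial

open Pool.Agent.H64.CheinDefs

theorem result (n : ℕ) (hn : 3 ≤ n) : Cbar n ⊓ T n ≠ ⊥ :=
  Pool.Agent.H64.Chein.main n hn

end Pool.Agent.Results.MP_0edd48_al.Nontrivial
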